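import Mathlib
import Pool.Agent.X257.LG.Prim
import Pool.Agent.X257.LG.Rank

/-!
# The Legendre family: infinitely many fibres of rank zero

For all primes `p`, `q`, `r` which are `3` mod `8`, with `p + r = 2 q` and `p ≠ q`, the rank of
`y² = x (x + 1) (x + t)` over `ℚ` at `t = 2 q / p` is zero. There are infinitely many such `t`.
-/

set_option autoImplicit false

namespace Pool.Agent.Results.MP_ba5221_nt.LegendreFamily

open Pool.Agent.X257.LG (Trip rank exists_trip)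

/-- the fibre at `t` of the elliptic surface `y² = x (x + 1) (x + T)`, that is
`y² = x³ + (1 + t) x² + t x` -/
def E (t : ℚ) : WeierstrassCurve ℚ := ⟨0, 1 + t, 0, t, 0⟩

/-- the rank of the group of the rational points of a curve -/
noncomputable def rk (W : WeierstrassCurve ℚ) : ℕ := Module.finrank ℤ W.toAffine.Point

/-- **Main theorem.** -/
theorem result :
    (∀ p q r : ℕ, p.Prime → q.Prime → r.Prime → p % 8 = 3 → q % 8 = 3 → r % 8 = 3 →
      p + r = 2 * q → p ≠ q → (E (2 * q / p)).Δ ≠ 0 ∧ rk (E (2 * q / p)) = 0) ∧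
    {t : ℚ | (E t).Δ ≠ 0 ∧ rk (E t) = 0}.Infinite := by
  have main : ∀ p q r : ℕ, p.Prime → q.Prime → r.Prime → p % 8 = 3 → q % 8 = 3 → r % 8 = 3 →
      p + r = 2 * q → p ≠ q → (E (2 * q / p)).Δ ≠ 0 ∧ rk (E (2 * q / p)) = 0 := by
    intro p q r hp hq hr p8 q8 r8 hs hne
    refine ⟨?_, rank ⟨hp, hq, hr, p8, q8, r8, hs, hne⟩⟩
    have hp0 : (p : ℚ) ≠ 0 := by exact_mod_cast hp.ne_zero
    have hq0 : (q : ℚ) ≠ 0 := by exact_mod_cast hq.ne_zero
    have hr0 : (r : ℚ) ≠ 0 := by exact_mod_cast hr.ne_zero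
    have hs' : (p : ℚ) + r = 2 * q := by exact_mod_cast hs
    obtain ⟨t, ht⟩ : ∃ t : ℚ, t = 2 * q / p := ⟨_, rfl⟩
    rw [← ht]
    have h0 : t ≠ 0 := by rw [ht]; positivity
    have h1 : t - 1 ≠ 0 := by
      have e : t - 1 = r / p := by
        rw [ht]
        field_simp
        linarith
      rw [e]
      positivity
    have e : (E t).Δ = 16 * (t * (t - 1)) ^ 2 := by
      simp only [WeierstrassCurve.Δ, WeierstrassCurve.b₂, WeierstrassCurve.b₄,
        WeierstrassCurve.b₆, WeierstrassCurve.b₈, E]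
      ring
    rw [e]
    exact mul_ne_zero (by norm_num) (pow_ne_zero 2 (mul_ne_zero h0 h1))
  refine ⟨main, ?_⟩
  apply Set.Infinite.of_image (fun t : ℚ => t.den)
  apply Set.infinite_of_forall_exists_gt
  intro Y
  obtain ⟨p, q, r, hY, hpq, h⟩ := exists_trip Y
  refine ⟨((2 * q / p : ℚ)).den, ⟨2 * q / p, main p q r h.hp h.hq h.hr h.p8 h.q8 h.r8 h.sum h.ne,
    rfl⟩, ?_⟩
  obtain ⟨t, ht⟩ : ∃ t : ℚ, t = 2 * q / p := ⟨_, rfl⟩
  rw [← ht]
  have hp0 : (p : ℚ) ≠ 0 := by exact_mod_cast h.hp.ne_zero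
  have hd0 : (t.den : ℚ) ≠ 0 := by exact_mod_cast t.den_nz
  have h1 : t.num * (p : ℤ) = 2 * q * t.den := by
    have h2 : (t.num : ℚ) / t.den = 2 * q / p := by rw [Rat.num_div_den, ht]
    rw [div_eq_div_iff hd0 hp0] at h2
    exact_mod_cast h2
  have h2 : (p : ℤ) ∣ 2 * q * t.den := ⟨t.num, by rw [← h1]; ring⟩
  have h3 : p ∣ 2 * q * t.den := by exact_mod_cast h2
  have h4 : p ∣ t.den := by
    rcases h.hp.dvd_mul.1 h3 with h4 | h4
    · exfalso
      rcases h.hp.dvd_mul.1 h4 with h5 | h5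
      · have := (Nat.prime_dvd_prime_iff_eq h.hp Nat.prime_two).1 h5
        have := h.p8
        omega
      · exact h.ne ((Nat.prime_dvd_prime_iff_eq h.hp h.hq).1 h5)
    · exact h4
  have h5 := Nat.le_of_dvd t.pos h4
  omega

end Pool.Agent.Results.MP_ba5221_nt.LegendreFamily
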